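import Pool.Agent.Y925.NV.Fix
import Pool.Agent.Y63.NV.Stm4
import Pool.Agent.Y63.NV.Infl
import Pool.Agent.Y624.NV.Trn
import Pool.Agent.Y77.NV.Count
import Pool.Agent.Y77.NV.DGN2

/-!
# The structure of the Brauer quotient of the projective centre, with central characters
-/

open scoped Classical BigOperators

set_option linter.unusedSectionVars false
set_option maxHeartbeats 400000

noncomputable section

namespace Pool.Agent.Y925.NV

open Pool.Agent.Y63.AWC (IsIrreducibleCharacter)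
open Pool.Agent.Y63.NV Pool.Agent.Y930.NV Pool.Agent.Y624.NV
open Pool.Agent.Helper884.IC (Irr mem_Irr)

variable {p : ℕ} [Fact p.Prime] {F : Type} [Field F] [CharP F p]

/-- sums of invariant functions over a set with an action of a `p`-group -/
theorem sum_fx {R : Type} [Group R] [Finite R] (hR : IsPGroup p R) {α : Type} [Fintype α]
    (act : R → α → α) (h1 : ∀ x, act 1 x = x) (h2 : ∀ r s x, act (r * s) x = act r (act s x))
    (f : α → F) (hf : ∀ r x, f (act r x) = f x) :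
    ∑ x, f x = ∑ x ∈ Finset.univ.filter (fun x => ∀ r, act r x = x), f x := by
  let _ : MulAction R α := { smul := act, one_smul := h1, mul_smul := h2 }
  exact sum_fixed hR f hf

theorem kk_inv {G : Type} [Group G] (x : G) : kk x⁻¹ = kk x := by
  unfold kk
  refine Nat.card_congr (Equiv.subtypeEquivRight fun n => ?_)
  constructor
  · intro h
    have h2 : n * x * n⁻¹ = (n * x⁻¹ * n⁻¹)⁻¹ := by group
    rw [h2, h, inv_inv]
  · intro h
    have h2 : n * x⁻¹ * n⁻¹ = (n * x * n⁻¹)⁻¹ := by group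
    rw [h2, h]

variable {Y : Type} [Group Y] [Finite Y] {X : Subgroup Y} [hX : X.Normal]

/-- conjugation by an element of `Y` on `X` -/
abbrev cY (y : Y) : X ≃* X := MulAut.conjNormal y

theorem cY_coe (y : Y) (x : X) : ((cY y x : X) : Y) = y * x * y⁻¹ := MulAut.conjNormal_apply y x

/-- the action on functions -/
def ya (y : Y) (χ : X → ℂ) : X → ℂ := fun a => χ (cY y⁻¹ a)

theorem ya_one (χ : X → ℂ) : ya (1 : Y) χ = χ := by
  funext a
  unfold ya
  congr 1
  apply Subtype.ext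
  rw [cY_coe]
  simp

theorem ya_mul (y y' : Y) (χ : X → ℂ) : ya (y * y') χ = ya y (ya y' χ) := by
  funext a
  unfold ya
  congr 1
  apply Subtype.ext
  rw [cY_coe, cY_coe, cY_coe]
  simp [mul_assoc]

/-- the character is invariant -/
def Inv (χ : X → ℂ) : Prop := ∀ (y : Y) (a b : X), (b : Y) = y * a * y⁻¹ → χ b = χ a

theorem irr_ya (y : Y) {χ : X → ℂ} (h : IsIrreducibleCharacter χ) :
    IsIrreducibleCharacter (ya y χ) := irr_comp (cY y⁻¹) h

theorem md_ya (y : Y) {χ : X → ℂ} (h : IsIrreducibleCharacter χ) : md (ya y χ) = md χ := by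
  have : Fintype X := Fintype.ofFinite X
  have h1 := md_spec h
  have h2 := md_spec (irr_ya y h)
  have h3 : ya y χ 1 = χ 1 := by
    unfold ya
    rw [map_one]
  rw [h3, ← h1] at h2
  have h4 := mul_right_cancel₀ (irr_one_ne h) h2
  exact_mod_cast h4

theorem inv_iff {R : Subgroup Y} (hR : ∀ y : Y, ∃ n ∈ X, ∃ r ∈ R, y = n * r) {χ : X → ℂ}
    (h : IsIrreducibleCharacter χ) : (∀ r : R, ya (r : Y) χ = χ) ↔ Inv χ := by
  constructor
  · intro h1 y a b hb
    obtain ⟨n, hn, r, hr, rfl⟩ := hR y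
    have h2 : b = ⟨n, hn⟩ * cY r a * (⟨n, hn⟩ : X)⁻¹ := by
      apply Subtype.ext
      rw [hb]
      push_cast
      rw [cY_coe]
      group
    rw [h2, irr_class h]
    have h3 := congrFun (h1 ⟨r, hr⟩) (cY r a)
    rw [← h3]
    unfold ya
    congr 1
    apply Subtype.ext
    rw [cY_coe, cY_coe]
    simp [mul_assoc]
  · intro h1 r
    funext a
    unfold ya
    exact h1 (r : Y)⁻¹ a _ (cY_coe _ _)

theorem kk_X (x : X) : kk x = Nat.card ↥(X ⊓ Subgroup.centralizer {(x : Y)}) := by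
  unfold kk
  refine Nat.card_congr
    { toFun := fun n => ⟨n.1, Subgroup.mem_inf.2 ⟨n.1.2, ?_⟩⟩
      invFun := fun n => ⟨⟨n.1, (Subgroup.mem_inf.1 n.2).1⟩, ?_⟩
      left_inv := fun n => rfl
      right_inv := fun n => rfl }
  · rw [Subgroup.mem_centralizer_singleton_iff]
    have h1 := n.2
    have h2 : (n.1 : Y) * x * (n.1 : Y)⁻¹ = x := by
      have := congrArg Subtype.val h1
      simpa using this
    exact mul_inv_eq_iff_eq_mul.1 h2
  · have h1 := (Subgroup.mem_inf.1 n.2).2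
    rw [Subgroup.mem_centralizer_singleton_iff] at h1
    apply Subtype.ext
    show (n : Y) * x * (n : Y)⁻¹ = x
    rw [h1]
    group

theorem kk_F (x : X) : (kk x : F) ≠ 0 ↔ ¬ p ∣ Nat.card ↥(X ⊓ Subgroup.centralizer {(x : Y)}) := by
  rw [kk_X, ne_eq, CharP.cast_eq_zero_iff F p]

theorem kk_E0 {x : X} (h : (x : Y) ∈ E0 p X) : (kk x : F) ≠ 0 := (kk_F (p := p) x).2 h.2.1

theorem E0_of {R : Subgroup Y} (hR : ∀ y : Y, ∃ n ∈ X, ∃ r ∈ R, y = n * r) {x : X}
    (h0 : (kk x : F) ≠ 0) (h : ∀ r ∈ R, ∃ n : X, cY r x = n * x * n⁻¹) : (x : Y) ∈ E0 p X := by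
  refine ⟨x.2, (kk_F (p := p) x).1 h0, fun y => ?_⟩
  obtain ⟨n, hn, r, hr, rfl⟩ := hR y
  obtain ⟨m, hm⟩ := h r hr
  refine ⟨n * m, X.mul_mem hn m.2, ?_⟩
  have h1 := congrArg Subtype.val hm
  rw [cY_coe] at h1
  have h2 : n * r * x * (n * r)⁻¹ = n * (r * x * r⁻¹) * n⁻¹ := by group
  rw [h2, h1]
  push_cast
  group

variable (red : integralClosure ℤ ℂ →+* F)

/-- the function `g ↦ χ(g⁻¹)` on `E0` -/
def ww (p : ℕ) (χ : X → ℂ) : Y → F :=
  fun x => if h : x ∈ E0 p X then redC red (χ (⟨x, h.1⟩ : X)⁻¹) else 0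

theorem ww_coe (χ : X → ℂ) (x : X) :
    ww red p χ (x : Y) = if (x : Y) ∈ E0 p X then redC red (χ x⁻¹) else 0 := by
  unfold ww
  by_cases h : (x : Y) ∈ E0 p X
  · rw [dif_pos h, if_pos h]
  · rw [dif_neg h, if_neg h]

theorem ww_VS {χ : X → ℂ} (h : Inv χ) : ww red p χ ∈ VS (F := F) (E0 p X) ⊤ := by
  refine ⟨fun x hx => dif_neg hx, fun j _ x => ?_⟩
  by_cases hx : x ∈ E0 p X
  · have hx' := Pool.Agent.Y77.NV.E0_conj hx j
    unfold ww
    rw [dif_pos hx, dif_pos hx']
    congr 1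
    refine h j _ _ ?_
    push_cast
    group
  · have hx' : ¬ j * x * j⁻¹ ∈ E0 p X := fun h => hx (by
      have h2 := Pool.Agent.Y77.NV.E0_conj h j⁻¹
      have h3 : j⁻¹ * (j * x * j⁻¹) * j⁻¹⁻¹ = x := by group
      rwa [h3] at h2)
    unfold ww
    rw [dif_neg hx, dif_neg hx']

theorem sum_sub {g : Y → F} (hg : ∀ y, y ∉ X → g y = 0) [Fintype X] :
    ∑ᶠ y : Y, g y = ∑ y : X, g y := by
  have : Fintype Y := Fintype.ofFinite Y
  rw [finsum_eq_sum_of_fintype]
  have h3 : ∑ y : Y, g y = ∑ y ∈ Finset.univ.filter (fun y => y ∈ X), g y := by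
    refine (Finset.sum_filter_of_ne fun y _ hy => ?_).symm
    by_contra h4
    exact hy (hg y h4)
  rw [h3, Finset.sum_subtype (p := fun y => y ∈ X) _ (fun y => by simp) g]

/-- invariant characters of defect zero -/
abbrev Io (p : ℕ) (X : Subgroup Y) : Type :=
  {χ : X → ℂ // IsIrreducibleCharacter χ ∧
    (∃ n : ℕ, χ 1 = (n : ℂ) ∧ n.factorization p = (Nat.card X).factorization p) ∧
    ∀ (y : Y) (a b : X), (b : Y) = y * a * y⁻¹ → χ b = χ a}

instance : Finite (Io p X) := by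
  have : Fintype X := Fintype.ofFinite X
  exact Set.Finite.subset (Pool.Agent.Helper884.IC.irr_finite (G := X)) fun χ hχ => hχ.1

theorem Io_md (i : Io p X) : (md i.1 : F) ≠ 0 := by
  have : Fintype X := Fintype.ofFinite X
  rw [ne_eq, CharP.cast_eq_zero_iff F p]
  exact (dz_iff i.2.1).1 i.2.2.1

theorem ex_R (hq : IsPGroup p (Y ⧸ X)) : ∃ R : Subgroup Y, IsPGroup p R ∧
    ∀ y : Y, ∃ n ∈ X, ∃ r ∈ R, y = n * r := by
  obtain ⟨R, _, hRp, hR⟩ := Pool.Agent.Y77.NV.supl p (⊤ : Subgroup Y) X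
    (fun h _ n hn => hX.conj_mem n hn h) (fun h _ => by
      obtain ⟨k, hk⟩ := hq (h : Y ⧸ X)
      refine ⟨k, ?_⟩
      rw [← QuotientGroup.eq_one_iff]
      exact hk)
  exact ⟨R, hRp, fun y => hR y trivial⟩

/-- invariant sums over the irreducible characters only see the invariant ones -/
theorem sum_Io [Fintype X] [Fintype (Io p X)] (hq : IsPGroup p (Y ⧸ X)) (T : (X → ℂ) → F)
    (h1 : ∀ (y : Y) (χ : X → ℂ), IsIrreducibleCharacter χ → T (ya y χ) = T χ)
    (h2 : ∀ χ : X → ℂ, IsIrreducibleCharacter χ → (md χ : F) = 0 → T χ = 0) :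
    ∑ χ ∈ Irr X, T χ = ∑ i : Io p X, T i.1 := by
  obtain ⟨R, hRp, hR⟩ := ex_R (p := p) hq
  have hfin : Finite {χ : X → ℂ // IsIrreducibleCharacter χ} :=
    Pool.Agent.Helper884.IC.irr_finite (G := X)
  have : Fintype {χ : X → ℂ // IsIrreducibleCharacter χ} := Fintype.ofFinite _
  have e1 : ∀ T' : (X → ℂ) → F, ∑ χ ∈ Irr X, T' χ =
      ∑ χ : {χ : X → ℂ // IsIrreducibleCharacter χ}, T' χ.1 := fun T' =>
    Finset.sum_subtype (Irr X) (fun χ => mem_Irr) T'
  let act : R → {χ : X → ℂ // IsIrreducibleCharacter χ} →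
      {χ : X → ℂ // IsIrreducibleCharacter χ} := fun r χ => ⟨ya (r : Y) χ.1, irr_ya _ χ.2⟩
  have e2 := sum_fx (F := F) hRp act (fun χ => Subtype.ext (ya_one χ.1))
    (fun r s χ => Subtype.ext (ya_mul (r : Y) s χ.1)) (fun χ => T χ.1)
    (fun r χ => h1 r χ.1 χ.2)
  rw [e1, e2, Finset.sum_filter]
  have e3 : ∀ χ : {χ : X → ℂ // IsIrreducibleCharacter χ},
      (if ∀ r, act r χ = χ then T χ.1 else 0) = if Inv χ.1 then T χ.1 else 0 := by
    intro χ
    congr 1
    rw [← inv_iff hR χ.2]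
    apply propext
    exact ⟨fun h r => congrArg Subtype.val (h r), fun h r => Subtype.ext (h r)⟩
  rw [Finset.sum_congr rfl fun χ _ => e3 χ, ← e1 (fun χ => if Inv χ then T χ else 0)]
  have e4 : ∀ i : X → ℂ, i ∈ (Irr X).filter (fun χ =>
      (∃ n : ℕ, χ 1 = (n : ℂ) ∧ n.factorization p = (Nat.card X).factorization p) ∧ Inv χ) ↔
      IsIrreducibleCharacter i ∧ (∃ n : ℕ, i 1 = (n : ℂ) ∧
        n.factorization p = (Nat.card X).factorization p) ∧
        ∀ (y : Y) (a b : X), (b : Y) = y * a * y⁻¹ → i b = i a := by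
    intro i
    rw [Finset.mem_filter, mem_Irr]
    exact Iff.rfl
  have e5 : ∑ χ ∈ (Irr X).filter (fun χ =>
      (∃ n : ℕ, χ 1 = (n : ℂ) ∧ n.factorization p = (Nat.card X).factorization p) ∧ Inv χ), T χ =
      ∑ i : Io p X, T i.1 := Finset.sum_subtype _ e4 T
  refine Eq.trans ?_ e5
  rw [← Finset.sum_filter]
  symm
  refine Finset.sum_subset ?_ ?_
  · intro χ hχ
    rw [Finset.mem_filter] at hχ ⊢
    exact ⟨hχ.1, hχ.2.2⟩
  · intro χ hχ hχ'
    rw [Finset.mem_filter] at hχ hχ'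
    apply h2 χ (mem_Irr.1 hχ.1)
    by_contra h3
    apply hχ'
    refine ⟨hχ.1, ?_, hχ.2⟩
    rw [dz_iff (mem_Irr.1 hχ.1)]
    rwa [CharP.cast_eq_zero_iff F p] at h3

theorem VS_Cf {f : Y → F} (hf : f ∈ VS (F := F) (E0 p X) ⊤) : Cf (fun x : X => f x) :=
  fun g x => by
    have := hf.2 (g : Y) trivial x
    exact this

theorem VS_kk {f : Y → F} (hf : f ∈ VS (F := F) (E0 p X) ⊤) (x : X) (hx : (kk x : F) = 0) :
    f x = 0 := hf.1 _ fun h => kk_E0 (p := p) h hx

theorem cv_ya (y : Y) {χ : X → ℂ} (h : IsIrreducibleCharacter χ) {f : Y → F}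
    (hf : ∀ g x : Y, f (g * x * g⁻¹) = f x) :
    centralValue red (ya y χ) (fun x : X => f x) = centralValue red χ (fun x : X => f x) := by
  have hc : IsClassFun (fun x : X => f x) := fun g x => hf g x
  have h1 := centralValue_comp red (cY (X := X) y⁻¹) h hc
  have h2 : (fun x : X => f ((cY y⁻¹ x : X) : Y)) = fun x : X => f x := by
    funext x
    rw [cY_coe]
    exact hf _ _
  rw [h2] at h1
  exact h1

/-- the product formula -/
theorem prod_eq [Fintype (Io p X)] (hq : IsPGroup p (Y ⧸ X)) {f h : Y → F}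
    (hf : f ∈ VS (F := F) (E0 p X) ⊤) (hh : h ∈ VS (F := F) (E0 p X) ⊤) :
    prod0 p X f h = ∑ i : Io p X, ((md i.1 : F)⁻¹ * centralValue red i.1 (fun x : X => f x) *
      centralValue red i.1 (fun x : X => h x)) • ww red p i.1 := by
  have : Fintype X := Fintype.ofFinite X
  funext x
  rw [Finset.sum_apply]
  by_cases hx : x ∈ E0 p X
  · obtain ⟨x', rfl⟩ : ∃ x' : X, (x' : Y) = x := ⟨⟨x, hx.1⟩, rfl⟩
    unfold prod0
    rw [if_pos hx]
    unfold conv
    rw [sum_sub (X := X) (fun y hy => by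
      rw [hf.1 y fun h => hy h.1, zero_mul])]
    have h1 := cv_eq red (VS_Cf hf) (VS_Cf hh) (VS_kk hf) (VS_kk hh) x'
    have h2 : cv (fun x : X => f x) (fun x : X => h x) x' =
        ∑ y : X, f y * h ((y : Y)⁻¹ * x') := rfl
    rw [← h2, h1, sum_Io hq]
    · refine Finset.sum_congr rfl fun i _ => ?_
      rw [Pi.smul_apply, smul_eq_mul, ww_coe, if_pos hx]
    · intro y χ hχ
      rw [md_ya y hχ, cv_ya red y hχ fun g x => hf.2 g trivial x,
        cv_ya red y hχ fun g x => hh.2 g trivial x]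
      congr 1
      congr 1
      obtain ⟨n, hn, h3⟩ := hx.2.2 y⁻¹
      unfold ya
      have h4 : (cY y⁻¹ x'⁻¹ : X) = ⟨n, hn⟩ * x'⁻¹ * (⟨n, hn⟩ : X)⁻¹ := by
        apply Subtype.ext
        rw [cY_coe]
        push_cast
        have h5 : y⁻¹ * (x' : Y)⁻¹ * y⁻¹⁻¹ = (y⁻¹ * x' * y⁻¹⁻¹)⁻¹ := by group
        rw [h5, h3]
        group
      rw [h4, irr_class hχ]
    · intro χ _ h0
      rw [h0]
      simp
  · unfold prod0
    rw [if_neg hx]
    symm
    refine Finset.sum_eq_zero fun i _ => ?_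
    rw [Pi.smul_apply, smul_eq_mul]
    unfold ww
    rw [dif_neg hx, mul_zero]

/-- only the classes in `E0` contribute -/
theorem res0 (hq : IsPGroup p (Y ⧸ X)) (i j : Io p X) :
    centralValue red j.1 (fun x : X => ww red p i.1 x) =
      centralValue red j.1 (fun x : X => redC red (i.1 x⁻¹)) := by
  have : Fintype X := Fintype.ofFinite X
  obtain ⟨R, hRp, hR⟩ := ex_R (p := p) hq
  have hinv : Inv i.1 := i.2.2.2
  have hinvj : Inv j.1 := j.2.2.2
  have hW := ww_VS (p := p) red hinv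
  have hirr : IsIrreducibleCharacter i.1 := i.2.1
  refine cv_fixed red hRp (fun r : R => cY (X := X) (r : Y)) ?_ ?_ j.2.1 ?_ (VS_Cf hW) ?_ ?_ ?_ ?_
  · intro x
    apply Subtype.ext
    rw [cY_coe]
    simp
  · intro r s x
    apply Subtype.ext
    rw [cY_coe, cY_coe, cY_coe]
    simp [mul_assoc]
  · intro r x
    exact hinvj (r : Y) _ _ (cY_coe _ _)
  · intro g x
    show redC red (i.1 (g * x * g⁻¹)⁻¹) = redC red (i.1 x⁻¹)
    have h1 : (g * x * g⁻¹)⁻¹ = g * x⁻¹ * g⁻¹ := by group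
    rw [h1, irr_class hirr]
  · intro r x
    show ww red p i.1 ((cY (X := X) (r : Y) x : X) : Y) = ww red p i.1 (x : Y)
    rw [cY_coe, hW.2 r trivial]
  · intro r x
    show redC red (i.1 (cY (X := X) (r : Y) x)⁻¹) = redC red (i.1 x⁻¹)
    congr 1
    refine hinv (r : Y) _ _ ?_
    push_cast
    rw [cY_coe]
    group
  · intro x hx
    show ww red p i.1 (x : Y) = redC red (i.1 x⁻¹)
    by_cases hk : (kk x : F) = 0
    · rw [VS_kk hW _ hk]
      symm
      refine red_zero red hirr (Io_md i) ?_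
      rw [kk_inv]
      exact hk
    · have b1 : (x : Y) ∈ E0 p X := by
        refine E0_of (F := F) hR hk fun r hr => ?_
        obtain ⟨c, hc⟩ := isConj_iff.1 (hx ⟨r, hr⟩)
        exact ⟨c, hc.symm⟩
      rw [ww_coe, if_pos b1]

theorem orth0_self (hq : IsPGroup p (Y ⧸ X)) (i : Io p X) :
    centralValue red i.1 (fun x : X => ww red p i.1 x) = (md i.1 : F) := by
  have : Fintype X := Fintype.ofFinite X
  rw [res0 red hq i i, orth_self red i.2.1]

theorem orth0_ne (hq : IsPGroup p (Y ⧸ X)) (i j : Io p X) (hne : j ≠ i) :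
    centralValue red j.1 (fun x : X => ww red p i.1 x) = 0 := by
  have : Fintype X := Fintype.ofFinite X
  rw [res0 red hq i j, orth_ne red i.2.1 j.2.1 fun h => hne (Subtype.ext h)]

/-- the functions `ww` are eigenvectors -/
theorem eig (hq : IsPGroup p (Y ⧸ X)) {z : Y → F} (hz : InZ X z) (i : Io p X) :
    Cop p X z (ww red p i.1) = centralValue red i.1 (fun x : X => z x) • ww red p i.1 := by
  have : Fintype X := Fintype.ofFinite X
  have hinv : Inv i.1 := i.2.2.2
  have hW := ww_VS (p := p) red hinv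
  funext x
  rw [Pi.smul_apply, smul_eq_mul]
  show Cfun p X z (ww red p i.1) x = _
  unfold Cfun
  by_cases hx : x ∈ E0 p X
  · rw [if_pos hx]
    obtain ⟨S, hS, hxS⟩ := Pool.Agent.Y77.NV.exists_cmp hq hx
    have hxS' := (Pool.Agent.Y77.NV.mem_KR.1 hxS).2
    obtain ⟨x', rfl⟩ : ∃ x' : X, (x' : Y) = x := ⟨⟨x, hx.1⟩, rfl⟩
    rw [sum_sub (X := X) (fun y hy => by rw [hz.supp y hy, zero_mul]), ww_coe, if_pos hx]
    have hc : Cf (fun x : X => z x) := fun g x => hz.conj g x
    have h1 := tr_z red i.2.1 hc x'⁻¹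
    rw [← h1, ← sub_eq_zero, ← Finset.sum_sub_distrib]
    refine Pool.Agent.Y77.NV.psum hS.pg (fun (r : S) (y : X) => cY (X := X) (r : Y) y) ?_ ?_ _
      ?_ ?_
    · intro y
      apply Subtype.ext
      rw [cY_coe]
      simp
    · intro r s y
      apply Subtype.ext
      rw [cY_coe, cY_coe, cY_coe]
      simp [mul_assoc]
    · intro r y
      have hr : (r : Y) * x' = x' * r := hxS' r r.2
      have a1 : z ((cY (X := X) (r : Y) y : X) : Y) = z y := by
        rw [cY_coe, hz.conj]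
      have a2 : (((cY (X := X) (r : Y) y : X) : Y))⁻¹ * x' = r * ((y : Y)⁻¹ * x') * (r : Y)⁻¹ := by
        rw [cY_coe]
        have a3 : (r : Y)⁻¹ * x' = x' * (r : Y)⁻¹ := by
          rw [inv_mul_eq_iff_eq_mul, ← mul_assoc, hr]
          group
        calc ((r : Y) * y * (r : Y)⁻¹)⁻¹ * x' = r * (y : Y)⁻¹ * ((r : Y)⁻¹ * x') := by group
          _ = r * ((y : Y)⁻¹ * x') * (r : Y)⁻¹ := by rw [a3]; group
      have a4 : i.1 (x'⁻¹ * cY (X := X) (r : Y) y) = i.1 (x'⁻¹ * y) := by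
        refine hinv (r : Y) _ _ ?_
        push_cast
        rw [cY_coe]
        have a3 : (r : Y) * (x' : Y)⁻¹ = (x' : Y)⁻¹ * r := by
          rw [eq_inv_mul_iff_mul_eq, ← mul_assoc, ← hr]
          group
        calc (x' : Y)⁻¹ * (r * y * (r : Y)⁻¹) = (x' : Y)⁻¹ * r * y * (r : Y)⁻¹ := by group
          _ = (r : Y) * ((x' : Y)⁻¹ * y) * (r : Y)⁻¹ := by rw [← a3]; group
      rw [a1, a2, hW.2 r trivial, a4]
    · intro y hy
      have hfix : ∀ r ∈ S, cY (X := X) r y = y := fun r hr => hy ⟨r, hr⟩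
      have b0 : (y : Y)⁻¹ * x' = ((y⁻¹ * x' : X) : Y) := by push_cast; rfl
      have b1 : (y⁻¹ * x' : X)⁻¹ = x'⁻¹ * y := by group
      rw [b0, ww_coe, b1]
      by_cases hk : (kk (y⁻¹ * x' : X) : F) = 0
      · have b2 : ¬ (((y⁻¹ * x' : X) : Y) ∈ E0 p X) := fun h => kk_E0 (p := p) h hk
        have b3 : redC red (i.1 (x'⁻¹ * y)) = 0 := by
          refine red_zero red i.2.1 (Io_md i) ?_
          rw [← b1, kk_inv]
          exact hk
        rw [if_neg b2, b3]
        simp
      · have b2 : ((y⁻¹ * x' : X) : Y) ∈ E0 p X := by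
          refine E0_of (F := F) hS.sup hk fun r hr => ⟨1, ?_⟩
          rw [map_mul, map_inv, hfix r hr]
          have b4 : cY (X := X) r x' = x' := by
            apply Subtype.ext
            rw [cY_coe, hxS' r hr]
            group
          rw [b4]
          group
        rw [if_pos b2]
        ring
  · rw [if_neg hx, hW.1 x hx, mul_zero]

/-- linear independence -/
theorem li (hq : IsPGroup p (Y ⧸ X)) :
    LinearIndependent F (fun i : Io p X => ww red p i.1) := by
  have : Fintype (Io p X) := Fintype.ofFinite _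
  rw [Fintype.linearIndependent_iff]
  intro a ha j
  have : Fintype X := Fintype.ofFinite X
  have h1 := cv_lin red j.2.1 Finset.univ a (fun (i : Io p X) (x : X) => ww red p i.1 x)
  have h2 : (fun x : X => ∑ i : Io p X, a i * ww red p i.1 x) = fun _ => (0 : F) := by
    funext x
    have := congrFun ha (x : Y)
    rw [Finset.sum_apply] at this
    exact this
  rw [h2, cv_zero red j.2.1] at h1
  have h3 : ∑ i : Io p X, a i * centralValue red j.1 (fun x : X => ww red p i.1 x) =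
      a j * (md j.1 : F) := by
    rw [Finset.sum_eq_single j]
    · rw [orth0_self red hq j]
    · intro i _ hi
      rw [orth0_ne red hq i j fun h => hi h.symm, mul_zero]
    · intro h
      exact absurd (Finset.mem_univ _) h
  rw [h3] at h1
  rcases mul_eq_zero.1 h1.symm with h4 | h4
  · exact h4
  · exact absurd h4 (Io_md j)

/-- the span of the products -/
theorem span_eq (hq : IsPGroup p (Y ⧸ X)) :
    Submodule.span F {h : Y → F | ∃ f ∈ VS (F := F) (E0 p X) ⊤,
      ∃ g ∈ VS (F := F) (E0 p X) ⊤, h = prod0 p X f g} =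
    Submodule.span F (Set.range (fun i : Io p X => ww red p i.1)) := by
  have : Fintype (Io p X) := Fintype.ofFinite _
  apply le_antisymm
  · rw [Submodule.span_le]
    rintro _ ⟨f, hf, g, hg, rfl⟩
    rw [prod_eq red hq hf hg]
    exact Submodule.sum_mem _ fun i _ =>
      Submodule.smul_mem _ _ (Submodule.subset_span ⟨i, rfl⟩)
  · rw [Submodule.span_le]
    rintro _ ⟨i, rfl⟩
    have hW := ww_VS (p := p) red (show Inv i.1 from i.2.2.2)
    have h1 := prod_eq red hq hW hW
    have h2 : ∑ j : Io p X, ((md j.1 : F)⁻¹ *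
        centralValue red j.1 (fun x : X => ww red p i.1 x) *
        centralValue red j.1 (fun x : X => ww red p i.1 x)) • ww red p j.1 =
        (md i.1 : F) • ww red p i.1 := by
      rw [Finset.sum_eq_single i]
      · rw [orth0_self red hq i]
        congr 1
        have := Io_md (F := F) i
        field_simp
      · intro j _ hji
        rw [orth0_ne red hq i j hji]
        simp
      · intro h
        exact absurd (Finset.mem_univ _) h
    rw [h2] at h1
    have h3 : ww red p i.1 = (md i.1 : F)⁻¹ • prod0 p X (ww red p i.1) (ww red p i.1) := by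
      rw [h1, smul_smul, inv_mul_cancel₀ (Io_md i), one_smul]
    show ww red p i.1 ∈ _
    rw [h3]
    exact Submodule.smul_mem _ _ (Submodule.subset_span ⟨_, hW, _, hW, rfl⟩)

/-- DGN1L -/
theorem dgn1L : S_DGN1L := by
  intro p _ F _ _ red Y _ _ X hX z c hq hz
  unfold numInvDzL dzdL
  rw [Pool.Agent.Y77.NV.count (Cop p X z) _ (fun i : Io p X => ww red p i.1) (li red hq)
    (span_eq red hq) (fun i => centralValue red i.1 (fun x : X => z x))
    (fun i => eig red hq hz i) c]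
  exact (Nat.card_congr (Equiv.subtypeSubtypeEquivSubtypeInter _ _)).symm

/-- DGN1 -/
theorem dgn1 : S_DGN1 := by
  intro p _ F _ _ red Y _ _ X hX hq
  unfold numInvDz dzd
  rw [span_eq red hq]
  have : Fintype (Io p X) := Fintype.ofFinite _
  have h1 := finrank_span_eq_card (li (p := p) (X := X) red hq)
  rw [h1, Nat.card_eq_fintype_card]

end Pool.Agent.Y925.NV
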