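import Pool.Agent.Y925.NV.Grp
import Pool.Agent.Y624.NV.Trn
import Pool.Agent.Y77.NV.Base

/-!
# Only the fixed classes contribute to the value of an invariant central character
-/

open scoped Classical BigOperators

set_option linter.unusedSectionVars false
set_option maxHeartbeats 400000

noncomputable section

namespace Pool.Agent.Y925.NV

open Pool.Agent.Y63.AWC (IsIrreducibleCharacter)
open Pool.Agent.Y63.NV Pool.Agent.Y930.NV Pool.Agent.Y624.NV

variable {p : ℕ} [Fact p.Prime] {F : Type} [Field F] [CharP F p]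
  (red : integralClosure ℤ ℂ →+* F) {G : Type} [Group G] [Fintype G]

theorem cv_fixed {P : Type} [Group P] [Finite P] (hR : IsPGroup p P) (e : P → G ≃* G)
    (he1 : ∀ x, e 1 x = x) (hem : ∀ r s x, e (r * s) x = e r (e s x)) {ψ : G → ℂ}
    (hψ : IsIrreducibleCharacter ψ) (hψe : ∀ r x, ψ (e r x) = ψ x) {f g : G → F} (hf : Cf f)
    (hg : Cf g) (hfe : ∀ r x, f (e r x) = f x) (hge : ∀ r x, g (e r x) = g x)
    (h : ∀ x : G, (∀ r, IsConj x (e r x)) → f x = g x) :
    centralValue red ψ f = centralValue red ψ g := by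
  rw [centralValue_eq red hψ, centralValue_eq red hψ, ← sub_eq_zero, ← Finset.sum_sub_distrib]
  refine Pool.Agent.Y77.NV.psum hR (fun r C => ccEquiv (e r) C) ?_ ?_
    (fun C : ConjClasses G => f C.out * R red ψ (ind ℤ C) - g C.out * R red ψ (ind ℤ C)) ?_ ?_
  · intro C
    obtain ⟨x, rfl⟩ := ConjClasses.exists_rep C
    rw [ccEquiv_mk, he1]
  · intro r s C
    obtain ⟨x, rfl⟩ := ConjClasses.exists_rep C
    rw [ccEquiv_mk, ccEquiv_mk, ccEquiv_mk, hem]
  · intro r C
    have hc := out_conj (e r) C
    have a1 : f (ccEquiv (e r) C).out = f C.out := by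
      rw [← hfe r C.out]
      exact (class_isConj hf hc).symm
    have a2 : g (ccEquiv (e r) C).out = g C.out := by
      rw [← hge r C.out]
      exact (class_isConj hg hc).symm
    have a3 : R red ψ (ind ℤ (ccEquiv (e r) C)) = R red ψ (ind ℤ C) := by
      have a4 : ψ (ccEquiv (e r) C).out = ψ C.out := by
        rw [← hψe r C.out]
        exact (class_isConj (irr_class hψ) hc).symm
      rw [R_ind, R_ind, om_ind _ (irr_Cf hψ), om_ind _ (irr_Cf hψ), ← carrier_card, a4]
    show f (ccEquiv (e r) C).out * R red ψ (ind ℤ (ccEquiv (e r) C)) -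
      g (ccEquiv (e r) C).out * R red ψ (ind ℤ (ccEquiv (e r) C)) = _
    rw [a1, a2, a3]
  · intro C hC
    have h1 : f C.out = g C.out := by
      apply h
      intro r
      have h2 : ConjClasses.mk (e r C.out) = ConjClasses.mk C.out := by
        rw [← ccEquiv_mk, mk_out]
        exact hC r
      exact (ConjClasses.mk_eq_mk_iff_isConj.1 h2).symm
    show f C.out * R red ψ (ind ℤ C) - g C.out * R red ψ (ind ℤ C) = 0
    rw [h1, sub_self]

end Pool.Agent.Y925.NV
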