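import Pool.Agent.Y930.NV.Cen
import Pool.Agent.Y63.AWC.Deg
import Pool.Agent.Y63.NV.Stm2

/-!
# Products of class functions on the elements with `|C(x)|` prime to `p`
-/

open scoped Classical BigOperators

set_option linter.unusedSectionVars false

noncomputable section

namespace Pool.Agent.Y925.NV

open Pool.Agent.Y63.AWC (IsIrreducibleCharacter)
open Pool.Agent.Y63.NV Pool.Agent.Y930.NV
open Pool.Agent.Helper884.IC (Irr mem_Irr)

variable {G : Type} [Group G] [Fintype G]

/-- the order of the centraliser -/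
def kk (x : G) : ℕ := Nat.card {n : G // n * x * n⁻¹ = x}

theorem kk_conj (g x : G) : kk (g * x * g⁻¹) = kk x := by
  unfold kk
  refine Nat.card_congr ((MulAut.conj g⁻¹).toEquiv.subtypeEquiv fun n => ?_)
  have e1 : (MulAut.conj g⁻¹).toEquiv n = g⁻¹ * n * g := by simp
  rw [e1]
  constructor
  · intro h
    have h2 : g⁻¹ * n * g * x * (g⁻¹ * n * g)⁻¹ = g⁻¹ * (n * (g * x * g⁻¹) * n⁻¹) * g := by group
    rw [h2, h]
    group
  · intro h
    have h2 : n * (g * x * g⁻¹) * n⁻¹ = g * (g⁻¹ * n * g * x * (g⁻¹ * n * g)⁻¹) * g⁻¹ := by group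
    rw [h2, h]

theorem kk_Cf : Cf (kk : G → ℕ) := kk_conj

theorem kk_class (C : ConjClasses G) : Nat.card C.carrier * kk C.out = Nat.card G := by
  set a : G := C.out with ha
  have hmk : ConjClasses.mk a = C := mk_out C
  have hm : ∀ n : G, n * a * n⁻¹ ∈ C.carrier := by
    intro n
    rw [ConjClasses.mem_carrier_iff_mk_eq, mk_conj, hmk]
  let f : G → C.carrier := fun n => ⟨n * a * n⁻¹, hm n⟩
  have e := Equiv.sigmaFiberEquiv f
  have h1 : ∀ x : C.carrier, Nat.card {n : G // f n = x} = kk a := by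
    rintro ⟨x, hx⟩
    have h2 : ConjClasses.mk a = ConjClasses.mk x := by
      rw [hmk]
      exact (ConjClasses.mem_carrier_iff_mk_eq.1 hx).symm
    rw [ConjClasses.mk_eq_mk_iff_isConj, isConj_iff] at h2
    obtain ⟨c, hc⟩ := h2
    refine Nat.card_congr ((Equiv.mulLeft c⁻¹).subtypeEquiv fun n => ?_)
    simp only [Equiv.coe_mulLeft]
    constructor
    · intro h
      have h3 : n * a * n⁻¹ = x := congrArg Subtype.val h
      have h4 : c⁻¹ * n * a * (c⁻¹ * n)⁻¹ = c⁻¹ * (n * a * n⁻¹) * c := by group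
      rw [h4, h3, ← hc]
      group
    · intro h
      apply Subtype.ext
      show n * a * n⁻¹ = x
      have h4 : n * a * n⁻¹ = c * (c⁻¹ * n * a * (c⁻¹ * n)⁻¹) * c⁻¹ := by group
      rw [h4, h, hc]
  have : Fintype C.carrier := Fintype.ofFinite _
  have h2 := Nat.card_congr e
  rw [Nat.card_sigma] at h2
  rw [← h2, Finset.sum_congr rfl fun x _ => h1 x, Finset.sum_const, Finset.card_univ,
    Nat.card_eq_fintype_card, smul_eq_mul]

theorem inv_formula {φ : G → ℂ} (hφ : Cf φ) (g : G) :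
    φ g = ∑ χ ∈ Irr G, χ 1 / (Nat.card G : ℂ) * om χ φ * χ g⁻¹ := by
  have h1 : Pool.Agent.Helper884.IC.IsClass (fun x => φ x⁻¹) := by
    intro x y
    show φ (y * x * y⁻¹)⁻¹ = φ x⁻¹
    have : (y * x * y⁻¹)⁻¹ = y * x⁻¹ * y⁻¹ := by group
    rw [this, hφ]
  have h2 := congrFun (Pool.Agent.Helper884.IC.expand _ h1) g⁻¹
  rw [Finset.sum_apply] at h2
  simp only [inv_inv] at h2
  rw [h2]
  refine Finset.sum_congr rfl fun χ hχ => ?_
  rw [Pi.smul_apply, smul_eq_mul]
  congr 1
  have h3 := Pool.Agent.Y63.AWC.one_ne (mem_Irr.1 hχ)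
  have h4 : ∑ x : G, φ x⁻¹ * χ x⁻¹ = ∑ x : G, φ x * χ x :=
    Fintype.sum_equiv (Equiv.inv G) _ _ fun x => rfl
  unfold Pool.Agent.Helper884.IC.B om
  rw [h4]
  field_simp

/-- `|G| / χ(1)` -/
def md (χ : G → ℂ) : ℕ := if h : ∃ m : ℕ, (m : ℂ) * χ 1 = (Nat.card G : ℂ) then h.choose else 0

theorem md_ex {χ : G → ℂ} (h : IsIrreducibleCharacter χ) :
    ∃ m : ℕ, (m : ℂ) * χ 1 = (Nat.card G : ℂ) := by
  obtain ⟨n, hn, h1⟩ := Pool.Agent.Y63.AWC.deg_nat (chi := χ) h
  obtain ⟨m, hm⟩ := Pool.Agent.Y63.AWC.deg_dvd (chi := χ) h h1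
  refine ⟨m, ?_⟩
  rw [h1, hm]
  push_cast
  ring

theorem md_spec {χ : G → ℂ} (h : IsIrreducibleCharacter χ) :
    (md χ : ℂ) * χ 1 = (Nat.card G : ℂ) := by
  unfold md
  rw [dif_pos (md_ex h)]
  exact (md_ex h).choose_spec

/-- the characters of defect zero -/
theorem dz_iff {p : ℕ} [Fact p.Prime] {χ : G → ℂ} (h : IsIrreducibleCharacter χ) :
    (∃ n : ℕ, χ 1 = (n : ℂ) ∧ n.factorization p = (Nat.card G).factorization p) ↔
      ¬ p ∣ md χ := by
  obtain ⟨n, hn, h1⟩ := Pool.Agent.Y63.AWC.deg_nat (chi := χ) h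
  have h2 := md_spec h
  rw [h1] at h2
  have h3 : md χ * n = Nat.card G := by exact_mod_cast h2
  have h0 : 0 < Nat.card G := Nat.card_pos
  have hm : md χ ≠ 0 := by
    intro h4
    rw [h4, zero_mul] at h3
    omega
  have h4 : (Nat.card G).factorization p = (md χ).factorization p + n.factorization p := by
    rw [← h3, Nat.factorization_mul hm hn.ne', Finsupp.add_apply]
  have hp : p.Prime := Fact.out
  have h5 : p ∣ md χ ↔ (md χ).factorization p ≠ 0 := by
    rw [ne_eq, Nat.factorization_eq_zero_iff]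
    push Not
    exact ⟨fun h => ⟨hp, h, hm⟩, fun h => h.2.1⟩
  rw [h5]
  constructor
  · rintro ⟨n', hn', h6⟩
    have : n' = n := by
      rw [h1] at hn'
      exact_mod_cast hn'.symm
    subst this
    omega
  · intro h6
    push Not at h6
    exact ⟨n, h1, by omega⟩

section F
variable {F : Type} [Field F] (red : integralClosure ℤ ℂ →+* F)

theorem int_nat (n : ℕ) : IsIntegral ℤ (n : ℂ) := by
  have := int_intCast (n : ℤ)
  simpa using this

theorem redC_nat (n : ℕ) : redC red (n : ℂ) = (n : F) := by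
  have := redC_intCast red (n : ℤ)
  simpa using this

theorem chi_int {χ : G → ℂ} (h : IsIrreducibleCharacter χ) (g : G) : IsIntegral ℤ (χ g) :=
  Pool.Agent.Y63.AWC.isIntegral_char (chi := χ) h g

theorem kom {χ : G → ℂ} (h : IsIrreducibleCharacter χ) (C : ConjClasses G) :
    (kk C.out : ℂ) * om χ (ind ℂ C) = md χ * χ C.out := by
  rw [om_ind χ (irr_Cf h), ← mul_div_assoc, div_eq_iff (irr_one_ne h)]
  have h1 : (Nat.card C.carrier : ℂ) * (kk C.out : ℂ) = (md χ : ℂ) * χ 1 := by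
    rw [md_spec h, ← kk_class C]
    push_cast
    rfl
  linear_combination χ C.out * h1

theorem om_ind_int {χ : G → ℂ} (h : IsIrreducibleCharacter χ) (C : ConjClasses G) :
    IsIntegral ℤ (om χ (ind ℂ C)) := by
  rw [← ind_cast]
  exact om_int h (Cf_ind ℤ C)

theorem R_ind (χ : G → ℂ) (C : ConjClasses G) :
    R red χ (ind ℤ C) = redC red (om χ (ind ℂ C)) := by
  unfold R
  rw [ind_cast]

theorem kR {χ : G → ℂ} (h : IsIrreducibleCharacter χ) (C : ConjClasses G) :
    (kk C.out : F) * R red χ (ind ℤ C) = md χ * redC red (χ C.out) := by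
  have h1 := congrArg (redC red) (kom h C)
  rw [redC_mul red (int_nat _) (om_ind_int h C), redC_mul red (int_nat _) (chi_int h _),
    redC_nat, redC_nat, ← R_ind] at h1
  exact h1

/-- characters of defect zero vanish (after reduction) at the elements `g` with `p ∣ |C(g)|` -/
theorem red_zero {χ : G → ℂ} (h : IsIrreducibleCharacter χ) (hd : (md χ : F) ≠ 0) {g : G}
    (hg : (kk g : F) = 0) : redC red (χ g) = 0 := by
  have h1 := kR red h (ConjClasses.mk g)
  rw [Cf_out kk_Cf rfl, Cf_out (irr_Cf h) rfl, hg, zero_mul] at h1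
  rcases mul_eq_zero.1 h1.symm with h2 | h2
  · exact absurd h2 hd
  · exact h2

theorem cv_ind (C D : ConjClasses G) (g : G) :
    (kk C.out : F) * kk D.out * ((cv (ind ℤ C) (ind ℤ D) g : ℤ) : F) =
      ∑ χ ∈ Irr G, (md χ : F) * redC red (χ C.out) * redC red (χ D.out) * redC red (χ g⁻¹) := by
  have h1 := inv_formula (Cf_cv (Cf_ind ℂ C) (Cf_ind ℂ D)) g
  have h2 : cv (ind ℂ C) (ind ℂ D) g = ((cv (ind ℤ C) (ind ℤ D) g : ℤ) : ℂ) := by
    rw [← ind_cast, ← ind_cast]
    unfold cv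
    push_cast
    rfl
  have h3 : (((kk C.out * kk D.out : ℕ) : ℤ) * cv (ind ℤ C) (ind ℤ D) g : ℤ) =
      ∑ χ ∈ Irr G, (md χ : ℂ) * χ C.out * χ D.out * χ g⁻¹ := by
    push_cast
    rw [← h2, h1, Finset.mul_sum]
    refine Finset.sum_congr rfl fun χ hχ => ?_
    have hχ' : IsIrreducibleCharacter χ := mem_Irr.1 hχ
    rw [om_mul hχ' (Cf_ind ℂ C) (Cf_ind ℂ D)]
    have e1 := kom hχ' C
    have e2 := kom hχ' D
    have e3 := md_spec hχ'
    have e4 : (Nat.card G : ℂ) ≠ 0 := by exact_mod_cast Nat.card_pos.ne'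
    have e5 : (kk C.out : ℂ) * kk D.out * (χ 1 / (Nat.card G : ℂ) *
        (om χ (ind ℂ C) * om χ (ind ℂ D)) * χ g⁻¹) =
        χ 1 / (Nat.card G : ℂ) * ((kk C.out : ℂ) * om χ (ind ℂ C)) *
          ((kk D.out : ℂ) * om χ (ind ℂ D)) * χ g⁻¹ := by ring
    rw [e5, e1, e2]
    have e6 : χ 1 / (Nat.card G : ℂ) * (md χ : ℂ) = 1 := by
      rw [div_mul_eq_mul_div, mul_comm, e3, div_self e4]
    linear_combination (md χ : ℂ) * χ C.out * χ D.out * χ g⁻¹ * e6
  have h4 := congrArg (redC red) h3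
  rw [redC_intCast, redC_sum] at h4
  · push_cast at h4
    rw [h4]
    refine Finset.sum_congr rfl fun χ hχ => ?_
    have hχ' : IsIrreducibleCharacter χ := mem_Irr.1 hχ
    rw [redC_mul red (((int_nat _).mul (chi_int hχ' _)).mul (chi_int hχ' _)) (chi_int hχ' _),
      redC_mul red ((int_nat _).mul (chi_int hχ' _)) (chi_int hχ' _),
      redC_mul red (int_nat _) (chi_int hχ' _), redC_nat]
  · intro χ hχ
    have hχ' : IsIrreducibleCharacter χ := mem_Irr.1 hχ
    exact (((int_nat _).mul (chi_int hχ' _)).mul (chi_int hχ' _)).mul (chi_int hχ' _)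

theorem cv_ind2 (C D : ConjClasses G) (g : G) (hC : (kk C.out : F) ≠ 0)
    (hD : (kk D.out : F) ≠ 0) :
    ((cv (ind ℤ C) (ind ℤ D) g : ℤ) : F) =
      ∑ χ ∈ Irr G, (md χ : F)⁻¹ * R red χ (ind ℤ C) * R red χ (ind ℤ D) * redC red (χ g⁻¹) := by
  have h1 := cv_ind red C D g
  have h2 : ∑ χ ∈ Irr G, (md χ : F) * redC red (χ C.out) * redC red (χ D.out) *
      redC red (χ g⁻¹) = (kk C.out : F) * kk D.out * ∑ χ ∈ Irr G,
        (md χ : F)⁻¹ * R red χ (ind ℤ C) * R red χ (ind ℤ D) * redC red (χ g⁻¹) := by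
    rw [Finset.mul_sum]
    refine Finset.sum_congr rfl fun χ hχ => ?_
    have hχ' : IsIrreducibleCharacter χ := mem_Irr.1 hχ
    by_cases hm : (md χ : F) = 0
    · rw [hm]
      simp
    · have e1 := kR red hχ' C
      have e2 := kR red hχ' D
      have e3 : (kk C.out : F) * kk D.out * ((md χ : F)⁻¹ * R red χ (ind ℤ C) *
          R red χ (ind ℤ D) * redC red (χ g⁻¹)) = (md χ : F)⁻¹ *
          ((kk C.out : F) * R red χ (ind ℤ C)) * ((kk D.out : F) * R red χ (ind ℤ D)) *
            redC red (χ g⁻¹) := by ring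
      rw [e3, e1, e2]
      field_simp
  rw [h2] at h1
  exact mul_left_cancel₀ (mul_ne_zero hC hD) h1

theorem cv_expand {f g : G → F} (hf : Cf f) (hg : Cf g) (x : G) :
    cv f g x = ∑ C : ConjClasses G, ∑ D : ConjClasses G,
        f C.out * g D.out * ((cv (ind ℤ C) (ind ℤ D) x : ℤ) : F) := by
  unfold cv
  have h2 : ∀ y : G, f y * g (y⁻¹ * x) = ∑ C : ConjClasses G, ∑ D : ConjClasses G,
      f C.out * g D.out * (((ind ℤ C y * ind ℤ D (y⁻¹ * x) : ℤ)) : F) := by
    intro y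
    rw [Cf_expand hf y, Cf_expand hg (y⁻¹ * x), Finset.sum_mul_sum]
    refine Finset.sum_congr rfl fun C _ => Finset.sum_congr rfl fun D _ => ?_
    have e : ∀ (C : ConjClasses G) (z : G), ((ind ℤ C z : ℤ) : F) = ind F C z := by
      intro C z
      unfold ind
      split_ifs <;> simp
    rw [Int.cast_mul, e, e]
    ring
  simp_rw [h2]
  rw [Finset.sum_comm]
  refine Finset.sum_congr rfl fun C _ => ?_
  rw [Finset.sum_comm]
  refine Finset.sum_congr rfl fun D _ => ?_
  rw [← Finset.mul_sum]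
  push_cast
  rfl

/-- products of class functions supported on the elements `x` with `|C(x)|` prime to `p` -/
theorem cv_eq {f h : G → F} (hf : Cf f) (hh : Cf h) (hf0 : ∀ x, (kk x : F) = 0 → f x = 0)
    (hh0 : ∀ x, (kk x : F) = 0 → h x = 0) (g : G) :
    cv f h g = ∑ χ ∈ Irr G, (md χ : F)⁻¹ * centralValue red χ f * centralValue red χ h *
      redC red (χ g⁻¹) := by
  rw [cv_expand hf hh]
  have h1 : ∀ χ ∈ Irr G, (md χ : F)⁻¹ * centralValue red χ f * centralValue red χ h *
      redC red (χ g⁻¹) = ∑ C : ConjClasses G, ∑ D : ConjClasses G, f C.out * h D.out *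
        ((md χ : F)⁻¹ * R red χ (ind ℤ C) * R red χ (ind ℤ D) * redC red (χ g⁻¹)) := by
    intro χ hχ
    have hχ' : IsIrreducibleCharacter χ := mem_Irr.1 hχ
    rw [centralValue_eq red hχ', centralValue_eq red hχ', mul_assoc (md χ : F)⁻¹,
      Finset.sum_mul_sum, Finset.mul_sum, Finset.sum_mul]
    refine Finset.sum_congr rfl fun C _ => ?_
    rw [Finset.mul_sum, Finset.sum_mul]
    refine Finset.sum_congr rfl fun D _ => ?_
    ring
  have h2 : ∀ T : (G → ℂ) → ConjClasses G → ConjClasses G → F,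
      ∑ χ ∈ Irr G, ∑ C : ConjClasses G, ∑ D : ConjClasses G, T χ C D =
        ∑ C : ConjClasses G, ∑ D : ConjClasses G, ∑ χ ∈ Irr G, T χ C D := by
    intro T
    rw [Finset.sum_comm]
    refine Finset.sum_congr rfl fun C _ => ?_
    rw [Finset.sum_comm]
  rw [Finset.sum_congr rfl h1, h2]
  refine Finset.sum_congr rfl fun C _ => ?_
  refine Finset.sum_congr rfl fun D _ => ?_
  rw [← Finset.mul_sum]
  by_cases hC : (kk C.out : F) = 0
  · rw [hf0 _ hC, zero_mul, zero_mul, zero_mul]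
  by_cases hD : (kk D.out : F) = 0
  · rw [hh0 _ hD, mul_zero, zero_mul, zero_mul]
  rw [cv_ind2 red C D g hC hD]

/-- orthogonality -/
theorem orth {χ ψ : G → ℂ} (hχ : IsIrreducibleCharacter χ) (hψ : IsIrreducibleCharacter ψ) :
    centralValue red ψ (fun g => redC red (χ g⁻¹)) = if ψ = χ then (md ψ : F) else 0 := by
  have hc : Cf (fun g : G => χ g⁻¹) := by
    intro g x
    show χ (g * x * g⁻¹)⁻¹ = χ x⁻¹
    have : (g * x * g⁻¹)⁻¹ = g * x⁻¹ * g⁻¹ := by group
    rw [this, irr_Cf hχ]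
  rw [centralValue_eq red hψ]
  have h1 : om ψ (fun g => χ g⁻¹) = ∑ C : ConjClasses G, χ C.out⁻¹ * om ψ (ind ℂ C) := by
    have h2 : (fun g => χ g⁻¹) = fun g => ∑ C : ConjClasses G, χ C.out⁻¹ * ind ℂ C g := by
      funext g
      exact Cf_expand hc g
    conv_lhs => rw [h2]
    exact om_sum ψ Finset.univ (fun C : ConjClasses G => χ C.out⁻¹) (fun C g => ind ℂ C g)
  have h3 : om ψ (fun g => χ g⁻¹) = if ψ = χ then (md ψ : ℂ) else 0 := by
    have h4 := Pool.Agent.Helper884.IC.B_irr (chi := ψ) (psi := χ) hψ hχ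
    unfold Pool.Agent.Helper884.IC.B at h4
    have e4 : (Nat.card G : ℂ) ≠ 0 := by exact_mod_cast Nat.card_pos.ne'
    have h5 : ∑ g : G, χ g⁻¹ * ψ g = if ψ = χ then (Nat.card G : ℂ) else 0 := by
      have h6 : ∑ g : G, χ g⁻¹ * ψ g = ∑ g : G, ψ g * χ g⁻¹ :=
        Finset.sum_congr rfl fun g _ => mul_comm _ _
      rw [h6]
      split_ifs with hh
      · rw [if_pos hh] at h4
        field_simp at h4
        exact h4
      · rw [if_neg hh] at h4
        rcases mul_eq_zero.1 h4 with h7 | h7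
        · exact absurd h7 (inv_ne_zero e4)
        · exact h7
    unfold om
    rw [h5]
    split_ifs with hh
    · rw [div_eq_iff (irr_one_ne hψ), md_spec hψ]
    · rw [zero_div]
  have h4 := congrArg (redC red) (h1.symm.trans h3)
  rw [redC_sum red _ _ (fun C _ => (chi_int hχ _).mul (om_ind_int hψ C))] at h4
  have h5 : ∀ C : ConjClasses G, redC red (χ C.out⁻¹) * R red ψ (ind ℤ C) =
      redC red (χ C.out⁻¹ * om ψ (ind ℂ C)) := by
    intro C
    rw [redC_mul red (chi_int hχ _) (om_ind_int hψ C), R_ind]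
  have h6 : ∑ C : ConjClasses G, redC red (χ C.out⁻¹) * R red ψ (ind ℤ C) =
      ∑ C : ConjClasses G, redC red (χ C.out⁻¹ * om ψ (ind ℂ C)) :=
    Finset.sum_congr rfl fun C _ => h5 C
  show ∑ C : ConjClasses G, redC red (χ C.out⁻¹) * R red ψ (ind ℤ C) = _
  rw [h6, h4]
  split_ifs
  · exact redC_nat red _
  · exact redC_zero red

theorem orth_self {χ : G → ℂ} (hχ : IsIrreducibleCharacter χ) :
    centralValue red χ (fun g => redC red (χ g⁻¹)) = (md χ : F) := by
  rw [orth red hχ hχ, if_pos rfl]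

theorem orth_ne {χ ψ : G → ℂ} (hχ : IsIrreducibleCharacter χ) (hψ : IsIrreducibleCharacter ψ)
    (hne : ψ ≠ χ) : centralValue red ψ (fun g => redC red (χ g⁻¹)) = 0 := by
  rw [orth red hχ hψ, if_neg hne]

/-- translates -/
theorem tr_ind {χ : G → ℂ} (hχ : IsIrreducibleCharacter χ) (C : ConjClasses G) (x : G) :
    ∑ y : G, ind ℂ C y * χ (x * y) = om χ (ind ℂ C) * χ x := by
  obtain ⟨V, _, _, _, ρ, hr, rfl⟩ := hχ
  have h1 := Tp_eq ρ hr _ (Cf_ind ℂ C)
  have h2 : LinearMap.trace ℂ V (ρ x * Tp ρ (ind ℂ C)) =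
      ∑ y : G, ind ℂ C y * ρ.character (x * y) := by
    unfold Tp
    rw [Finset.mul_sum, map_sum]
    refine Finset.sum_congr rfl fun y _ => ?_
    rw [mul_smul_comm, map_smul, smul_eq_mul, ← map_mul]
    rfl
  rw [← h2, h1, mul_smul_comm, mul_one, map_smul, smul_eq_mul]
  rfl

theorem tr_z {χ : G → ℂ} (hχ : IsIrreducibleCharacter χ) {z : G → F} (hz : Cf z) (x : G) :
    ∑ y : G, z y * redC red (χ (x * y)) = centralValue red χ z * redC red (χ x) := by
  have h1 : ∀ C : ConjClasses G, ∑ y : G, ind F C y * redC red (χ (x * y)) =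
      R red χ (ind ℤ C) * redC red (χ x) := by
    intro C
    have h2 := congrArg (redC red) (tr_ind hχ C x)
    have e : ∀ z : G, ind ℂ C z = ((ind ℤ C z : ℤ) : ℂ) := by
      intro z
      unfold ind
      split_ifs <;> simp
    have e' : ∀ z : G, ((ind ℤ C z : ℤ) : F) = ind F C z := by
      intro z
      unfold ind
      split_ifs <;> simp
    rw [redC_mul red (om_ind_int hχ C) (chi_int hχ _), redC_sum] at h2
    · rw [R_ind, ← h2]
      refine Finset.sum_congr rfl fun y _ => ?_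
      rw [e, redC_mul red (int_intCast _) (chi_int hχ _), redC_intCast, e']
    · intro y _
      rw [e]
      exact (int_intCast _).mul (chi_int hχ _)
  rw [centralValue_eq red hχ, Finset.sum_mul]
  have h3 : ∀ y : G, z y * redC red (χ (x * y)) =
      ∑ C : ConjClasses G, z C.out * (ind F C y * redC red (χ (x * y))) := by
    intro y
    conv_lhs => rw [Cf_expand hz y]
    rw [Finset.sum_mul]
    refine Finset.sum_congr rfl fun C _ => ?_
    ring
  simp_rw [h3]
  rw [Finset.sum_comm]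
  refine Finset.sum_congr rfl fun C _ => ?_
  rw [← Finset.mul_sum, h1 C]
  ring

theorem cv_lin {χ : G → ℂ} (h : IsIrreducibleCharacter χ) {ι : Type} (s : Finset ι) (a : ι → F)
    (f : ι → G → F) : centralValue red χ (fun x : G => ∑ i ∈ s, a i * f i x) =
      ∑ i ∈ s, a i * centralValue red χ (f i) := by
  rw [centralValue_eq red h]
  have h1 : ∀ i ∈ s, a i * centralValue red χ (f i) =
      ∑ C : ConjClasses G, a i * (f i C.out * R red χ (ind ℤ C)) := by
    intro i _
    rw [centralValue_eq red h, Finset.mul_sum]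
  rw [Finset.sum_congr rfl h1, Finset.sum_comm]
  refine Finset.sum_congr rfl fun C _ => ?_
  rw [Finset.sum_mul]
  refine Finset.sum_congr rfl fun i _ => ?_
  ring

theorem cv_zero {χ : G → ℂ} (h : IsIrreducibleCharacter χ) :
    centralValue red χ (fun _ : G => (0 : F)) = 0 := by
  rw [centralValue_eq red h]
  simp

end F

end Pool.Agent.Y925.NV
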